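import Pool.Agent.H40.ISH.Stmts

/-!
Project ISH, module T2: from the density theorem to the Hausdorff distance.
-/

set_option linter.unusedVariables false

namespace Pool.ISH

open MeasureTheory Filter Topology
open scoped Classical Pointwise

theorem t2_ZZ_nonneg (β : ℝ) (N : ℕ) (S : Finset (Finset Site)) : 0 ≤ ZZ β N S :=
  Finset.sum_nonneg fun A _ => (wt_pos β N A).le

theorem t2_prob_nonneg (hl : LITStmt) (β : ℝ) (N : ℕ) (m : ℤ) (S : Finset Site → Prop) :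
    0 ≤ prob β N m S := by
  rw [hl]
  exact div_nonneg (t2_ZZ_nonneg _ _ _) (t2_ZZ_nonneg _ _ _)

theorem t2_prob_le (hl : LITStmt) (β : ℝ) (N : ℕ) (m : ℤ) (S S1 S2 : Finset Site → Prop)
    (h : ∀ A ⊆ Vb N, S A → S1 A ∨ S2 A) : prob β N m S ≤ prob β N m S1 + prob β N m S2 := by
  rw [hl, hl, hl, ← add_div]
  refine div_le_div_of_nonneg_right ?_ (t2_ZZ_nonneg _ _ _)
  unfold ZZ
  refine (Finset.sum_le_sum_of_subset_of_nonneg (t := (Cf N m).filter (fun A => S1 A) ∪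
    (Cf N m).filter (fun A => S2 A)) ?_ (fun A _ _ => (wt_pos β N A).le)).trans ?_
  · intro A hA
    rw [Finset.mem_filter] at hA
    rw [Finset.mem_union, Finset.mem_filter, Finset.mem_filter]
    have hA' : A ⊆ Vb N := Finset.mem_powerset.1 (Finset.mem_filter.1 hA.1).1
    rcases h A hA' hA.2 with h1 | h1
    · exact Or.inl ⟨hA.1, h1⟩
    · exact Or.inr ⟨hA.1, h1⟩
  · rw [← Finset.sum_union_inter]
    exact le_add_of_nonneg_right (Finset.sum_nonneg fun A _ => (wt_pos β N A).le)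

theorem t2_prob_not (hl : LITStmt) (β : ℝ) (N : ℕ) (m : ℤ) (hne : (Cf N m).Nonempty)
    (S : Finset Site → Prop) : prob β N m (fun A => ¬ S A) = 1 - prob β N m S := by
  have hpos : 0 < ZZ β N (Cf N m) := Finset.sum_pos (fun A _ => wt_pos β N A) hne
  rw [hl, hl, eq_sub_iff_add_eq, ← add_div, div_eq_one_iff_eq hpos.ne']
  unfold ZZ
  rw [add_comm]
  convert Finset.sum_filter_add_sum_filter_not (Cf N m) S (wt β N)

theorem t2 (h1 : T1Stmt) (hd1 : HD1Stmt) (hd2 : HD2Stmt) (hl : LITStmt) (hn : NEAStmt) :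
    T2Stmt := by
  obtain ⟨β₀, δ, hδ, h1⟩ := h1
  refine ⟨β₀, fun β hβ b hb0 hb1 m hm K hK hv ε hε => ?_⟩
  have hT := h1 β hβ b hb0 hb1 m hm
  obtain ⟨η₁, hη₁, N₁, hN₁⟩ := hd1 K hK ε hε
  obtain ⟨η₂, hη₂, N₂, hN₂⟩ := hd2 K hK ε δ hε hδ
  have hη : 0 < min η₁ η₂ := lt_min hη₁ hη₂
  have hv' := hv (min η₁ η₂) hη
  have hsum : Tendsto (fun N => (1 - prob β N (m N) (fun A => Dense δ ((Nat.log 2 N + 1) ^ 6) N A))
      + prob β N (m N) (fun A => min η₁ η₂ < vdist N A K)) atTop (𝓝 ((1 - 1) + 0)) :=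
    (tendsto_const_nhds.sub hT).add hv'
  rw [sub_self, add_zero] at hsum
  refine tendsto_of_tendsto_of_tendsto_of_le_of_le' tendsto_const_nhds hsum
    (Eventually.of_forall fun N => t2_prob_nonneg hl _ _ _ _) ?_
  filter_upwards [eventually_ge_atTop N₁, eventually_ge_atTop N₂, eventually_ge_atTop 1]
    with N hN1 hN2 hN3
  have hne := (hn N b (m N) hN3 hb0 hb1 (hm N)).2
  rw [← t2_prob_not hl β N (m N) hne]
  refine t2_prob_le hl β N (m N) _ _ _ fun A hA hS => ?_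
  by_contra hcon
  push Not at hcon
  obtain ⟨hD, hvd⟩ := hcon
  refine absurd hS (not_lt.2 ?_)
  refine Metric.hausdorffDist_le_of_mem_dist hε.le ?_ ?_
  · exact hN₂ N hN2 A hA hD (hvd.trans (min_le_right _ _))
  · exact hN₁ N hN1 A hA (hvd.trans (min_le_left _ _))

end Pool.ISH
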