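import Pool.Agent.H40.ISH.Stmts

/-!
Project ISH, module ZON: a cube which does not meet the surface.
-/

set_option linter.unusedVariables false

namespace Pool.ISH

open MeasureTheory Filter Topology
open scoped Classical Pointwise

/-- the clamp to the interval `[-1, 1]` -/
noncomputable def zonC (t : ℝ) : ℝ := max (-1) (min t 1)

theorem zonC_abs (t : ℝ) : |zonC t| ≤ 1 := by
  unfold zonC
  rw [abs_le]
  constructor
  · exact le_max_left _ _
  · exact max_le (by norm_num) (min_le_right _ _)

theorem zonC_big {t : ℝ} (h : 1 < |t|) : |zonC t| = 1 := by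
  unfold zonC
  rcases lt_abs.1 h with h1 | h1
  · rw [min_eq_right h1.le, max_eq_right (by norm_num)]
    norm_num
  · have h2 : t < -1 := by linarith
    rw [min_eq_left (by linarith), max_eq_left h2.le]
    norm_num

theorem zonC_near {t p ε : ℝ} (hε : 0 < ε) (hp : |p| ≤ 1 + ε / 2) (h : |t - p| ≤ ε / 2) :
    |zonC t - p| ≤ ε / 2 := by
  unfold zonC
  rw [abs_le] at hp h ⊢
  rcases le_total t 1 with h1 | h1
  · rw [min_eq_left h1]
    rcases le_total (-1) t with h2 | h2
    · rw [max_eq_right h2]
      exact h
    · rw [max_eq_left h2]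
      constructor <;> linarith [hp.1, hp.2, h.1, h.2]
  · rw [min_eq_right h1, max_eq_right (by norm_num)]
    constructor <;> linarith [hp.1, hp.2, h.1, h.2]

theorem zon_coord (i : Fin 3) : Continuous (fun y : E3 => y i) :=
  (EuclideanSpace.proj (𝕜 := ℝ) i).continuous

theorem zon_closed : IsClosed Qc := by
  unfold Qc
  rw [Set.ofPred_forall]
  exact isClosed_iInter fun i => isClosed_le (zon_coord i).abs continuous_const

/-- the point is locally null for a set -/
def zonN (S : Set E3) (y : E3) : Prop := ∃ r : ℝ, 0 < r ∧ volume (Metric.ball y r ∩ S) = 0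

theorem zonN_open (S : Set E3) : IsOpen {y | zonN S y} := by
  rw [Metric.isOpen_iff]
  rintro y ⟨r, hr, h⟩
  refine ⟨r / 2, by linarith, fun z hz => ⟨r / 2, by linarith, ?_⟩⟩
  refine measure_mono_null (Set.inter_subset_inter_left _ ?_) h
  refine Metric.ball_subset_ball' ?_
  rw [Metric.mem_ball] at hz
  linarith

theorem zonN_null {S C : Set E3} (h : ∀ y ∈ C, zonN S y) : volume (C ∩ S) = 0 := by
  refine measure_null_of_locally_null _ fun y hy => ?_
  obtain ⟨r, hr, h1⟩ := h y hy.1
  refine ⟨Metric.ball y r ∩ S, ?_, h1⟩
  rw [mem_nhdsWithin]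
  exact ⟨Metric.ball y r, Metric.isOpen_ball, Metric.mem_ball_self hr, fun z hz =>
    ⟨hz.1, hz.2.2⟩⟩

theorem zonN_disj {S : Set E3} {y : E3} (h1 : zonN S y) (h2 : zonN Sᶜ y) : False := by
  obtain ⟨r, hr, h1⟩ := h1
  obtain ⟨s, hs, h2⟩ := h2
  have h3 : volume (Metric.ball y (min r s)) = 0 := by
    refine le_antisymm ?_ zero_le
    calc volume (Metric.ball y (min r s)) ≤
        volume ((Metric.ball y r ∩ S) ∪ (Metric.ball y s ∩ Sᶜ)) := by
          refine measure_mono fun z hz => ?_
          by_cases hz2 : z ∈ S
          · exact Or.inl ⟨Metric.ball_subset_ball (min_le_left _ _) hz, hz2⟩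
          · exact Or.inr ⟨Metric.ball_subset_ball (min_le_right _ _) hz, hz2⟩
      _ ≤ _ := measure_union_le _ _
      _ = 0 := by rw [h1, h2, add_zero]
  have h4 : 0 < volume (Metric.ball y (min r s)) := Metric.measure_ball_pos _ _ (lt_min hr hs)
  rw [h3] at h4
  exact lt_irrefl _ h4

theorem zon_out {K : Set E3} {y : E3} (hy : y ∉ Qc) (hy2 : y 2 ≠ 0) :
    zonN (extend K) y ∨ zonN (extend K)ᶜ y := by
  obtain ⟨r, hr, hball⟩ := Metric.isOpen_iff.1 zon_closed.isOpen_compl y hy
  rcases lt_or_gt_of_ne hy2 with h | h
  · right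
    obtain ⟨s, hs, hball2⟩ := Metric.isOpen_iff.1
      (isOpen_lt (zon_coord 2) continuous_const : IsOpen {z : E3 | z 2 < 0}) y h
    refine ⟨min r s, lt_min hr hs, ?_⟩
    have : Metric.ball y (min r s) ∩ (extend K)ᶜ = ∅ := by
      ext z
      simp only [Set.mem_inter_iff, Set.mem_compl_iff, Set.mem_empty_iff_false, iff_false,
        not_and, not_not]
      intro hz
      exact Or.inr ⟨hball (Metric.ball_subset_ball (min_le_left _ _) hz),
        le_of_lt (hball2 (Metric.ball_subset_ball (min_le_right _ _) hz))⟩
    rw [this, measure_empty]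
  · left
    obtain ⟨s, hs, hball2⟩ := Metric.isOpen_iff.1
      (isOpen_lt continuous_const (zon_coord 2) : IsOpen {z : E3 | 0 < z 2}) y h
    refine ⟨min r s, lt_min hr hs, ?_⟩
    have : Metric.ball y (min r s) ∩ extend K = ∅ := by
      ext z
      simp only [Set.mem_inter_iff, Set.mem_empty_iff_false, iff_false, not_and]
      rintro hz (h1 | h1)
      · exact hball (Metric.ball_subset_ball (min_le_left _ _) hz) h1.1
      · exact absurd h1.2 (not_le.2 (hball2 (Metric.ball_subset_ball (min_le_right _ _) hz)))
    rw [this, measure_empty]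

theorem zon (hs : SURStmt) : ZONStmt := by
  intro K hK p ε hε hp hsur
  set C : Set E3 := {y : E3 | ∀ i, |y i - p i| ≤ ε / 2} with hC
  have hconv : Convex ℝ C := by
    intro x hx y hy a b ha hb hab i
    have h1 : (a • x + b • y) i - p i = a * (x i - p i) + b * (y i - p i) := by
      simp only [PiLp.add_apply, PiLp.smul_apply, smul_eq_mul]
      have : p i = (a + b) * p i := by rw [hab, one_mul]
      linear_combination (-1 : ℝ) * this
    rw [h1]
    calc |a * (x i - p i) + b * (y i - p i)| ≤ |a * (x i - p i)| + |b * (y i - p i)| :=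
          abs_add_le _ _
      _ = a * |x i - p i| + b * |y i - p i| := by
          rw [abs_mul, abs_mul, abs_of_nonneg ha, abs_of_nonneg hb]
      _ ≤ a * (ε / 2) + b * (ε / 2) := by
          have := mul_le_mul_of_nonneg_left (hx i) ha
          have := mul_le_mul_of_nonneg_left (hy i) hb
          linarith
      _ = ε / 2 := by rw [← add_mul, hab, one_mul]
  have hall : ∀ y ∈ C, zonN (extend K) y ∨ zonN (extend K)ᶜ y := by
    intro y hy
    by_cases hQ : y ∈ Qc
    · have h1 : y ∉ surface K := by
        intro h2
        obtain ⟨i, hi⟩ := hsur y h2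
        have := hy i
        linarith
      have h2 : ¬ ∀ r : ℝ, 0 < r → 0 < volume (Metric.ball y r ∩ extend K) ∧
          0 < volume (Metric.ball y r \ extend K) := fun h3 => h1 ⟨hQ, h3⟩
      push Not at h2
      obtain ⟨r, hr, h3⟩ := h2
      by_cases h4 : 0 < volume (Metric.ball y r ∩ extend K)
      · right
        exact ⟨r, hr, le_antisymm (h3 h4) zero_le⟩
      · left
        exact ⟨r, hr, le_antisymm (not_lt.1 h4) zero_le⟩
    · by_cases hy2 : y 2 = 0
      · exfalso
        let z : E3 := !₂[zonC (y 0), zonC (y 1), 0]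
        have hz0 : z 0 = zonC (y 0) := rfl
        have hz1 : z 1 = zonC (y 1) := rfl
        have hz2 : z 2 = 0 := rfl
        have hzQ : z ∈ Qc := by
          intro i
          fin_cases i
          · exact zonC_abs _
          · exact zonC_abs _
          · change |z 2| ≤ 1
            rw [hz2]
            norm_num
        have hbig : 1 < |y 0| ∨ 1 < |y 1| := by
          by_contra hcon
          push Not at hcon
          apply hQ
          intro i
          fin_cases i
          · exact hcon.1
          · exact hcon.2
          · change |y 2| ≤ 1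
            rw [hy2]
            norm_num
        have hzs : z ∈ surface K := by
          refine (hs K hK).2 z hzQ hz2 ?_
          rcases hbig with h | h
          · exact Or.inl (zonC_big h)
          · exact Or.inr (zonC_big h)
        obtain ⟨i, hi⟩ := hsur z hzs
        have hlt : |z i - p i| ≤ ε / 2 := by
          fin_cases i
          · exact zonC_near hε (hp 0) (hy 0)
          · exact zonC_near hε (hp 1) (hy 1)
          · have h5 := hy 2
            rw [hy2] at h5
            exact h5
        linarith
      · exact zon_out hQ hy2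
  have hcon : C ⊆ {y | zonN (extend K) y} ∨ C ⊆ {y | zonN (extend K)ᶜ y} := by
    refine isPreconnected_iff_subset_of_disjoint.1 hconv.isPreconnected _ _
      (zonN_open _) (zonN_open _) (fun y hy => hall y hy) ?_
    ext y
    simp only [Set.mem_inter_iff, Set.mem_empty_iff_false, iff_false, not_and]
    intro _ h1 h2
    exact zonN_disj h1 h2
  rcases hcon with h | h
  · exact Or.inl (zonN_null h)
  · exact Or.inr (zonN_null h)

end Pool.ISH
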